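import Pool.Agent.V8H94.CW.Times
import Pool.Agent.V8H94.TV.Conv
import Pool.Agent.V8H71.CW.Kahn
import Pool.Agent.V8H1.VT.Fin

/-!
# Rational and numerical equivalence: the main theorem
-/

set_option autoImplicit false

namespace Pool.Agent.V8H94.CW

open Module TensorProduct Pool.Agent.V8H94.CT Pool.Agent.V8H94.TC Pool.Agent.V8H94.TV

variable {p : ℕ} [Fact p.Prime] {Ω : Type} [Field Ω] [CharZero Ω]

theorem frob₂_pow (T : Varieties Ω) (X : T.V) (A : AbVar p Ω) (a b s : ℕ) :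
    (frob₂ T X A a b) ^ s = frob₂ T X A (a * s) (b * s) := by
  have h1 := VT.map_pow_tensor (E' := ExteriorAlgebra Ω A.H) (T.F X ^ a)
    (VT.pullLin A A (frobPow A b) : ExteriorAlgebra Ω A.H →ₗ[Ω] ExteriorAlgebra Ω A.H) s
  rw [← pow_mul] at h1
  refine h1.trans ?_
  have h2 : (VT.pullLin A A (frobPow A b) : ExteriorAlgebra Ω A.H →ₗ[Ω] ExteriorAlgebra Ω A.H) ^ s =
      (VT.pullLin A A (frobPow A (b * s)) : ExteriorAlgebra Ω A.H →ₗ[Ω] ExteriorAlgebra Ω A.H) :=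
    VT.pullLin_pow A b s
  exact congrArg (fun f => TensorProduct.map (T.F X ^ (a * s)) f) h2

theorem isGenTate_of (T : Varieties Ω) (X : T.V) (hX : 0 < T.m X) (A : AbVar p Ω) {k s : ℕ}
    (hs : 0 < s) {x : Coh₂ T X A}
    (h : IsGen (frobTimes T X A ^ s) (((p : Ω) ^ (T.m X * A.m)) ^ (k * s)) x) :
    IsGenTate T X A k x := by
  refine ⟨A.m * s, T.m X * s, Nat.mul_pos A.m_pos hs, Nat.mul_pos hX hs, by ring, ?_⟩
  rw [← frob₂_pow]
  have e : (p : Ω) ^ (T.m X * (A.m * s) * k) = ((p : Ω) ^ (T.m X * A.m)) ^ (k * s) := by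
    rw [← pow_mul]
    congr 1
    ring
  rw [e]
  exact h

theorem rational_of_strong [IsAlgClosed Ω] {T : Varieties Ω} {Z : Cycles p T} {X : T.V}
    (hX : 0 < T.m X) {A : AbVar p Ω} (D : ChowTimes Z X A) (h : StrongTate Z X A) :
    RationalIsNumerical D := by
  intro n hn α h0
  have hfin : Module.Finite Ω (ExteriorAlgebra Ω A.H) := V8H1.VT.finite_exteriorAlgebra Ω A.H
  have hfin' : FiniteDimensional Ω (Coh₂ T X A) :=
    (inferInstance : Module.Finite Ω (T.H X ⊗[Ω] ExteriorAlgebra Ω A.H))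
  have hp : (p : Ω) ≠ 0 := Nat.cast_ne_zero.2 (Fact.out : p.Prime).ne_zero
  refine num_trivial D.C D.isChow (pow_ne_zero _ hp) hn (fun k _ s hs x hx => ?_) α h0
  have h1 := isGenTate_of T X hX A hs hx
  exact (D.range k x).2 ⟨h k x h1, h1⟩

/-- **The main theorem.** -/
theorem main [IsAlgClosed Ω] {H : Cohomology p Ω} (Z : Cycles p H.T) {W : Set H.T.V}
    (hdiv : ∀ A : AbVar p Ω, TateHolds Z.S A 1)
    (hlow : ∀ X ∈ W, ∀ i ≤ 1, TateInDegree Z X i)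
    (D : ∀ X, IsProduct H.T W X → ∀ A : AbVar p Ω, ChowTimes Z X A) :
    ((∀ (A : AbVar p Ω) (r : ℕ), TateHolds Z.S A r) ∧
      ∀ (X : H.T.V) (hX : IsProduct H.T W X) (A : AbVar p Ω),
        StrongTate Z X A ∧ RationalIsNumerical (D X hX A)) ↔
    (TateInDegreeTwo Z.S ∧ ∀ X ∈ W, ∀ i, 2 ≤ i → i ≤ H.T.dim X → TateInDegree Z X i) := by
  constructor
  · rintro ⟨h1, h2⟩
    refine ⟨fun A B hm _ _ _ _ ht => h1 (A.prod B hm) 2 _ ht, fun X hX i _ _ => ?_⟩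
    intro B x _ b _ ht
    exact (h2 X (IsProduct.of X hX) B).1 i _ ht
  · intro h
    obtain ⟨h1, h2⟩ := (TV.main Z hdiv hlow).2 h
    exact ⟨fun A => (h1 A).2, fun X hX A => ⟨(h2 X hX A).1,
      rational_of_strong (H.smooth X).m_pos (D X hX A) (h2 X hX A).1⟩⟩

end Pool.Agent.V8H94.CW
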