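import Pool.Agent.V8H94.TV.Defs

/-!
# Chow groups
-/

set_option autoImplicit false

namespace Pool.Agent.V8H94.CW

open Module Pool.Agent.V8H94.CT Pool.Agent.V8H94.TC Pool.Agent.V8H94.TV

/-- Chow groups and the ring of correspondences of degree zero of a smooth projective variety `P` of
dimension `d` over the field with `q` elements, with coefficients in the field `K`: cycles over the
algebraic closure modulo rational equivalence. `E` is the cohomology of `P`, `F` its Frobenius
endomorphism. -/
structure Chow (K : Type) [Field K] (E : Type) [AddCommGroup E] [Module K E] (F : E →ₗ[K] E)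
    (q : K) (d : ℕ) : Type 1 where
  /-- the Chow group of cycles of codimension `n` -/
  M : ℕ → Type
  [grp : ∀ n, AddCommGroup (M n)]
  [mod : ∀ n, Module K (M n)]
  /-- the ring of correspondences of degree zero, cycles of codimension `d` on `P × P` -/
  R : Type
  [ring : Ring R]
  [alg : Algebra K R]
  /-- the cycle class -/
  cl : ∀ n, M n →ₗ[K] E
  /-- the intersection number -/
  deg : ∀ n, M n →ₗ[K] M (d - n) →ₗ[K] K
  /-- the operation of correspondences on cycles -/
  act : ∀ n, R →ₐ[K] Module.End K (M n)
  /-- the operation of correspondences on the cohomology -/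
  real : R →ₐ[K] Module.End K E
  /-- the graph of Frobenius -/
  fr : R
  /-- the exterior product of two cycles, as a correspondence -/
  rk : ∀ n, M n → M (d - n) → R
  /-- Poincaré duality -/
  B : E →ₗ[K] E →ₗ[K] K

attribute [instance] Chow.grp Chow.mod Chow.ring Chow.alg

/-- The properties of Chow groups of a variety whose motive is finite-dimensional. -/
structure IsChow {K : Type} [Field K] {E : Type} [AddCommGroup E] [Module K E] {F : E →ₗ[K] E}
    {q : K} {d : ℕ} (C : Chow K E F q d) : Prop where
  real_fr : C.real C.fr = F
  real_cl : ∀ n r α, C.real r (C.cl n α) = C.cl n (C.act n r α)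
  /-- a cycle is defined over a finite field, and Frobenius acts on it as a power of `q` -/
  act_fr : ∀ n α, ∃ s : ℕ, 0 < s ∧ C.act n (C.fr ^ s) α = q ^ (n * s) • α
  act_rk : ∀ n, n ≤ d → ∀ z z' α, C.act n (C.rk n z z') α = C.deg n α z' • z
  real_rk : ∀ n, n ≤ d → ∀ z z' x, C.real (C.rk n z z') x = C.B x (C.cl (d - n) z') • C.cl n z
  /-- Poincaré duality -/
  left : ∀ x, (∀ y, C.B x y = 0) → x = 0
  right : ∀ y, (∀ x, C.B x y = 0) → y = 0
  equivariant : ∀ x y, C.B (F x) (F y) = q ^ d * C.B x y
  /-- homologically trivial correspondences are nilpotent (Kimura and O'Sullivan) -/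
  nilpotent : ∀ r, C.real r = 0 → IsNilpotent r

end Pool.Agent.V8H94.CW
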