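import Pool.Agent.V8H94.CW.Defs

/-!
# Chow groups of `X × A`
-/

set_option autoImplicit false

namespace Pool.Agent.V8H94.CW

open Module Pool.Agent.V8H94.CT Pool.Agent.V8H94.TC Pool.Agent.V8H94.TV

variable {p : ℕ} [Fact p.Prime] {Ω : Type} [Field Ω] [CharZero Ω]

/-- The Frobenius endomorphism of `X × A` over the field with `p ^ (m X * m A)` elements. -/
noncomputable def frobTimes (T : Varieties Ω) (X : T.V) (A : AbVar p Ω) :
    Coh₂ T X A →ₗ[Ω] Coh₂ T X A := frob₂ T X A A.m (T.m X)

/-- The Chow groups of `X × A`, of dimension `d`, and the ring of correspondences of degree zero, if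
homologically trivial correspondences are nilpotent (for instance, if the motive of `X` is
finite-dimensional in the sense of Kimura and O'Sullivan). The system `Z` consists of the linear
combinations of the classes of the cycles. -/
structure ChowTimes {T : Varieties Ω} (Z : Cycles p T) (X : T.V) (A : AbVar p Ω) : Type 1 where
  d : ℕ
  C : Chow Ω (Coh₂ T X A) (frobTimes T X A) ((p : Ω) ^ (T.m X * A.m)) d
  isChow : IsChow C
  range : ∀ n t, (∃ α, C.cl n α = t) ↔ t ∈ Z.C X A ∧ IsGenTate T X A n t

/-- Numerically trivial cycles on `X × A` are rationally equivalent to zero, in all codimensions, with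
coefficients in a field of characteristic zero. -/
def RationalIsNumerical {T : Varieties Ω} {Z : Cycles p T} {X : T.V} {A : AbVar p Ω}
    (D : ChowTimes Z X A) : Prop :=
  ∀ n ≤ D.d, ∀ α : D.C.M n, (∀ z, D.C.deg n α z = 0) → α = 0

end Pool.Agent.V8H94.CW
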